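import Pool.Agent.R543.Promo.Main

/-!
# Chains maximise the degree of noninvertibility of extended promotion

For every nonempty finite poset `P` with `n` elements the degree of noninvertibility of the
extended promotion map `∂ : Λ(P) → Λ(P)` is at most `(n+2)(n+1)/6` (the value for the chain).
The definitions (`Labeling`, `lab`, `next`, `chainSeq`, `InChain`, `promLab`, `promotion`, `deg`)
are in `Pool.Agent.R543.Promo.Defs`.  The first component records the defining formula of
`promotion`.
-/

namespace Pool.Agent.Results.MP_180e15_co.ChainMaximises

open Pool.Agent.R543.Promo

open Classical in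
theorem result (P : Type) [Fintype P] [PartialOrder P] [Nonempty P] :
    (∀ (L : Labeling P) (x : P), lab (promotion L) x = promLab L x) ∧
    deg (promotion : Labeling P → Labeling P) ≤
      ((Fintype.card P : ℚ) + 2) * (Fintype.card P + 1) / 6 :=
  ⟨lab_promotion, deg_promotion_le⟩

end Pool.Agent.Results.MP_180e15_co.ChainMaximises
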